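import Pool.Agent.H394R3.Cond
import Pool.Agent.H394R3.Ens

set_option autoImplicit false

/-!
# Random linear systems can be solved faster than by matrix multiplication

We work with the uniform real random access machine of `Pool.Agent.H394R3.Lang` (exact arithmetic,
every arithmetic operation and comparison costs one step). One fixed deterministic program solves
every invertible system to accuracy `ε` in `O(n ^ 2 (log n + log (1 / ε) + log κ(A)) ^ 3)` steps.
It multiplies matrices whose entries are rounded to multiples of a small number with `O(n ^ 2)`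
operations, by packing the rows into single real numbers and by unpacking the entries of the product
with comparisons. It remains to show that the condition number of a random matrix is polynomial in
`n` with probability tending to one. For Gaussian entries this is elementary; for two values we use
the theorem of Littlewood, Offord and Erdős and a net argument for sparse vectors.
-/

namespace Pool.Agent.Results.MP_9b7f10_lc.RandomSystems

open Matrix MeasureTheory ProbabilityTheory Filter Topology Pool.Agent.H394R3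
open scoped Matrix.Norms.L2Operator ENNReal

/-- The three ensembles. -/
inductive Ensemble
  | gaussian | rademacher | bernoulli

/-- The law of one entry: standard Gaussian, uniform on `{-1, 1}`, uniform on `{0, 1}`. -/
noncomputable def entryLaw : Ensemble → Measure ℝ
  | .gaussian => gaussianReal 0 1
  | .rademacher => (2⁻¹ : ℝ≥0∞) • Measure.dirac (-1) + (2⁻¹ : ℝ≥0∞) • Measure.dirac 1
  | .bernoulli => (2⁻¹ : ℝ≥0∞) • Measure.dirac 0 + (2⁻¹ : ℝ≥0∞) • Measure.dirac 1

/-- The law of the family of the `n ^ 2` entries: they are independent. -/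
noncomputable def law (e : Ensemble) (n : ℕ) : Measure (Fin n × Fin n → ℝ) :=
  Measure.pi fun _ => entryLaw e

/-- There are events `Eₙ` with probabilities tending to one and a program `c` which, for every `A`
in `Eₙ`, every `b` and every `0 < ε < 1`, computes `x` with `‖A x - b‖ ≤ ε ‖b‖` in at most
`C n ^ β log ^ k (n / ε)` steps. -/
def Fast (e : Ensemble) (β : ℝ) : Prop :=
  ∃ (c : Cmd) (C : ℝ) (k : ℕ) (E : (n : ℕ) → Set (Fin n × Fin n → ℝ)),
    (∀ n, MeasurableSet (E n)) ∧ Tendsto (fun n => law e n (E n)) atTop (𝓝 1) ∧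
    ∀ n, ∀ a ∈ E n, ∀ (b : Fin n → ℝ) (ε : ℝ), 0 < ε → ε < 1 →
      ∃ σ t, Exec n 0 c (inputMem (Matrix.of fun i j => a (i, j)) b ε) σ t ∧
        nrm ((Matrix.of fun i j => a (i, j)) *ᵥ outputVec n σ - b) ≤ ε * nrm b ∧
        (t : ℝ) ≤ C * (n : ℝ) ^ β * Real.log (n / ε) ^ k

theorem tendsto_law (e : Ensemble) : Tendsto (fun n => law e n (GoodM n)) atTop (𝓝 1) := by
  have h2 : Tendsto (fun n : ℕ => (2 : ℝ) / n) atTop (𝓝 0) :=
    tendsto_const_div_atTop_nhds_zero_nat 2
  have hrt : ∀ᶠ n : ℕ in atTop, 0 < rt n ^ 3 := by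
    filter_upwards [tendsto_rt.eventually (eventually_ge_atTop 1)] with n hn
    positivity
  cases e with
  | gaussian =>
    refine tendsto_meas_one (fun n => gl n) _ measurableSet_goodM h2 ?_
    filter_upwards [eventually_ge_atTop 2] with n hn
    exact gauss_good hn
  | rademacher =>
    refine tendsto_meas_one (fun n => tl (-1) 1 n) _ measurableSet_goodM tendsto_badBound ?_
    filter_upwards [eventually_ge_atTop 2, hrt] with n hn hq
    exact two_good (by norm_num) (by norm_num) (by norm_num) hn hq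
  | bernoulli =>
    refine tendsto_meas_one (fun n => tl 0 1 n) _ measurableSet_goodM tendsto_badBound ?_
    filter_upwards [eventually_ge_atTop 2, hrt] with n hn hq
    exact two_good (by norm_num) (by norm_num) (by norm_num) hn hq

theorem fast_two (e : Ensemble) : Fast e 2 := by
  refine ⟨cSolve, 10 ^ 12, 3, GoodM, measurableSet_goodM, tendsto_law e, ?_⟩
  intro n a ha b ε hε hε1
  obtain ⟨hn, hdet, hS⟩ := ha
  set A : Matrix (Fin n) (Fin n) ℝ := mat a with hA
  have hA' : (Matrix.of fun i j => a (i, j)) = A := rfl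
  rw [hA']
  have hu : IsUnit A.det := isUnit_iff_ne_zero.2 hdet
  have hn1 : 1 ≤ n := by omega
  have hn2 : (2 : ℝ) ≤ n := by exact_mod_cast hn
  have hn0 : (1 : ℝ) ≤ n := by linarith
  have hie : 1 ≤ 1 / ε := by rw [le_div_iff₀ hε]; linarith
  set y : ℝ := n ^ 15 * (1 / ε) with hy
  have hn15 : (1 : ℝ) ≤ n ^ 15 := one_le_pow₀ hn0
  have hy1 : 1 ≤ y := by rw [hy]; nlinarith
  obtain ⟨Λ, hΛ, hΛ'⟩ := exists_pow hy1
  have k0 : (n : ℝ) ^ 15 ≤ y := le_mul_of_one_le_right (by positivity) hie
  have k1 : (n : ℝ) ≤ y := by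
    refine le_trans ?_ k0
    calc (n : ℝ) = n ^ 1 := (pow_one _).symm
      _ ≤ n ^ 15 := pow_le_pow_right₀ hn0 (by norm_num)
  have k2 : S1 A * ‖A⁻¹‖ ≤ y := by
    refine le_trans ?_ k0
    refine le_trans ?_ hS
    apply mul_le_mul_of_nonneg_left (norm_le_S1 _)
    unfold S1
    exact Finset.sum_nonneg fun i _ => Finset.sum_nonneg fun j _ => abs_nonneg _
  have k3 : 1 / ε ≤ y := le_mul_of_one_le_left (by positivity) hn15
  have hnΛ : n ≤ 2 ^ Λ := by
    have : (n : ℝ) ≤ 2 ^ Λ := k1.trans hΛ
    exact_mod_cast this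
  have hεΛ : 1 ≤ ε * 2 ^ Λ := by
    have := k3.trans hΛ
    rw [div_le_iff₀ hε] at this
    linarith
  obtain ⟨σ, t, h3, h4, h5, -⟩ := solve_run hn1 A hu b Λ hnΛ (k2.trans hΛ) hεΛ
  refine ⟨σ, t, h3, h5, ?_⟩
  have h7 : (t : ℝ) ≤ 10 ^ 7 * (n ^ 2 * ((Λ : ℝ) + 1) ^ 3) := by exact_mod_cast h4
  have hl1 : 1 / 2 ≤ Real.log n := by
    have h8 : Real.log 2 ≤ Real.log n := Real.log_le_log (by norm_num) hn2
    have := Real.log_two_gt_d9
    linarith
  have hl2 : 0 ≤ Real.log (1 / ε) := Real.log_nonneg hie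
  have hlog : Real.log y = 15 * Real.log n + Real.log (1 / ε) := by
    rw [hy, Real.log_mul (by positivity) (by positivity), Real.log_pow]
    push_cast; ring
  have hlz : Real.log (n / ε) = Real.log n + Real.log (1 / ε) := by
    rw [div_eq_mul_one_div, Real.log_mul (by positivity) (by positivity)]
  set z := Real.log (n / ε) with hz
  have h8 : (Λ : ℝ) + 1 ≤ 34 * z := by rw [hlog] at hΛ'; linarith
  have h9 : ((Λ : ℝ) + 1) ^ 3 ≤ (34 * z) ^ 3 := pow_le_pow_left₀ (by positivity) h8 3
  have hz0 : 0 ≤ z := by linarith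
  refine h7.trans ?_
  rw [Real.rpow_two]
  have h12 : 0 ≤ (n : ℝ) ^ 2 * z ^ 3 := by positivity
  calc (10 : ℝ) ^ 7 * (n ^ 2 * ((Λ : ℝ) + 1) ^ 3) ≤ 10 ^ 7 * (n ^ 2 * (34 * z) ^ 3) := by gcongr
    _ = 10 ^ 7 * 34 ^ 3 * (n ^ 2 * z ^ 3) := by ring
    _ ≤ 10 ^ 12 * (n ^ 2 * z ^ 3) := mul_le_mul_of_nonneg_right (by norm_num) h12
    _ = 10 ^ 12 * n ^ 2 * z ^ 3 := by ring

/-- For each of the three ensembles random systems are solved in `O(n ^ 2 log ^ 3 (n / ε))` steps;
in particular, for every `w > 2` (so for the exponent of matrix multiplication, if that is greater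
than `2`) there is `δ > 0` such that they are solved in `O(n ^ (w - δ) log ^ k (n / ε))` steps. -/
theorem result (e : Ensemble) : Fast e 2 ∧ ∀ w : ℝ, 2 < w → ∃ δ : ℝ, 0 < δ ∧ Fast e (w - δ) := by
  refine ⟨fast_two e, fun w hw => ⟨w - 2, by linarith, ?_⟩⟩
  have : w - (w - 2) = 2 := by ring
  rw [this]
  exact fast_two e

end Pool.Agent.Results.MP_9b7f10_lc.RandomSystems
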